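import Mathlib
import Pool.Agent.H984R3.ConvDefs
import Pool.Agent.W225.CG.BDim
import Pool.Agent.K7.H86.CG.Shift

/-!
# Q2: convex geometries of local dimension at most `5` and arbitrarily large Boolean dimension

The convex geometry of ordered data attached to a triangle-free family of boxes in space of large
chromatic number (starting files) has local dimension at most `5`. In the families used here every
intersecting pair of boxes `u`, `v` has an orientation `u → v`, and there is a closed set `A_uv`
which contains the letter `v` but not the letter `u`. For `u → v → w` the closed set `A_uv` is not
contained in `A_vw`, and for `u → v → w → t` the closed set `A_uv` is a proper subset of `A_wt`. If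
`d` linear orders decide inclusion, the patterns of the consecutive pairs `(A_uv, A_vw)` cannot
repeat along a directed path, and this gives a proper colouring of the boxes with `2 ^ 2 ^ 2 ^ d`
colours.
-/

namespace Pool.Agent.Results.MP_7f572a_co.BooleanUnbounded

open Pool.Agent.H984R3.ConvDefs Pool.Agent.W225.CG

/-- **Full answer to Q2 (negative).** For every `k` there is a convex geometry `C` on a nonempty
finite set which has local dimension at most `5` and Boolean dimension larger than `k`. -/
theorem result : ∀ k : ℕ, ∃ (X : Type) (_ : Finite X) (C : Set (Set X)),
    Nonempty X ∧ IsConvexGeometry C ∧ LocalDimLE C 5 ∧ ¬ BooleanDimLE C k := by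
  intro k
  obtain ⟨X, hX, C, h0, h1, h2, h3⟩ := Pool.Agent.K7.H86.CG.exists_geometry k
  exact ⟨X, hX, C, h0, h1, h2, h3⟩

end Pool.Agent.Results.MP_7f572a_co.BooleanUnbounded
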